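import Mathlib

set_option autoImplicit false

namespace Pool.Agent.Results.MP_a87573_co.DistinctRoots

open Finset Polynomial

open Classical in
/-- the number of edge coverings of `G` with exactly `i` edges -/
noncomputable def coverCount {V : Type} [Fintype V] (G : SimpleGraph V) (i : ℕ) : ℕ :=
  (G.edgeFinset.powerset.filter fun S => S.card = i ∧ ∀ v : V, ∃ e ∈ S, v ∈ e).card

open Classical in
/-- the edge cover polynomial, over `ℂ` -/
noncomputable def coverPoly {V : Type} [Fintype V] (G : SimpleGraph V) : ℂ[X] :=
  ∑ i ∈ range (G.edgeFinset.card + 1), C (coverCount G i : ℂ) * X ^ i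

theorem roots_bound (E : ℂ[X]) (m δ : ℕ) (hm : m ≤ E.natDegree) (h0 : E.coeff 0 = 0) (hE : E ≠ 0)
    (hδ : δ ≤ m) (hD : (C (m : ℂ) * E - (X + 1) * derivative E).natDegree ≤ m - δ) :
    δ ≤ E.roots.toFinset.card := by
  classical
  set D := C (m : ℂ) * E - (X + 1) * derivative E with hDdef
  have hD0 : D ≠ 0 := by
    intro h
    apply hE
    have hc : ∀ k, E.coeff k = 0 := by
      intro k
      induction k with
      | zero => exact h0
      | succ k ih =>
        have := congrArg (fun p => p.coeff k) h
        simp only [hDdef, add_mul, one_mul, coeff_sub, coeff_add, coeff_C_mul, ih, coeff_zero,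
          coeff_derivative] at this
        have hX : (X * derivative E).coeff k = 0 := by
          cases k with
          | zero => simp
          | succ j => rw [coeff_X_mul, coeff_derivative, ih, zero_mul]
        rw [hX] at this
        have hk : ((k : ℂ) + 1) ≠ 0 := by exact_mod_cast Nat.succ_ne_zero k
        simpa [hk] using this
    ext k
    simp [hc]
  have hle : E.roots ≤ D.roots + E.roots.dedup := by
    rw [Multiset.le_iff_count]
    intro a
    rw [Multiset.count_add, count_roots, count_roots]
    by_cases ha : a ∈ E.roots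
    · rw [Multiset.count_dedup, if_pos ha]
      have h1 := pow_rootMultiplicity_dvd E a
      have h2 := pow_sub_one_dvd_derivative_of_pow_dvd h1
      have h3 : (X - C a) ^ (rootMultiplicity a E - 1) ∣ D :=
        dvd_sub (Dvd.dvd.mul_left ((pow_dvd_pow _ (Nat.sub_le _ _)).trans h1) _)
          (Dvd.dvd.mul_left h2 _)
      have := (le_rootMultiplicity_iff hD0).mpr h3
      omega
    · have : rootMultiplicity a E = 0 := by
        rw [← count_roots]; exact Multiset.count_eq_zero.mpr ha
      omega
  have h1 := Multiset.card_le_card hle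
  rw [Multiset.card_add, IsAlgClosed.card_roots_eq_natDegree] at h1
  have h2 := card_roots' D
  have h3 : E.roots.toFinset.card = E.roots.dedup.card := rfl
  omega

open Classical in
theorem poly_eq {V : Type} [Fintype V] (G : SimpleGraph V) :
    coverPoly G = ∑ S ∈ G.edgeFinset.powerset,
      if ∀ v : V, ∃ e ∈ S, v ∈ e then (X : ℂ[X]) ^ S.card else 0 := by
  unfold coverPoly coverCount
  simp only [card_filter, Nat.cast_sum, map_sum, sum_mul]
  rw [sum_comm]
  apply sum_congr rfl
  intro S hS
  have hc : S.card ∈ range (G.edgeFinset.card + 1) :=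
    mem_range.mpr (Nat.lt_succ_of_le (card_le_card (mem_powerset.mp hS)))
  rw [sum_eq_single_of_mem _ hc]
  · by_cases h : ∀ v : V, ∃ e ∈ S, v ∈ e <;> simp [h]
  · intro i _ hi
    simp [hi.symm]

open Classical in
theorem poly_eq2 {V : Type} [Fintype V] (G : SimpleGraph V) :
    coverPoly G = ∑ U ∈ (univ : Finset V).powerset, C ((-1) ^ U.card) *
      (X + 1) ^ (G.edgeFinset.filter fun e => ∀ v ∈ U, v ∉ e).card := by
  rw [poly_eq]
  have h1 : ∀ S : Finset (Sym2 V), (if ∀ v : V, ∃ e ∈ S, v ∈ e then (X : ℂ[X]) ^ S.card else 0) =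
      ∑ U ∈ (univ : Finset V).powerset, C ((-1) ^ U.card) *
        if ∀ e ∈ S, ∀ v ∈ U, v ∉ e then X ^ S.card else 0 := by
    intro S
    have := Finset.prod_add (s := (univ : Finset V))
      (fun v => if ∀ e ∈ S, v ∉ e then (-1 : ℂ[X]) else 0) (fun _ => 1)
    simp only [prod_const_one, mul_one] at this
    have e1 : ∏ v : V, ((if ∀ e ∈ S, v ∉ e then (-1 : ℂ[X]) else 0) + 1) =
        if ∀ v : V, ∃ e ∈ S, v ∈ e then 1 else 0 := by
      split_ifs with h
      · apply prod_eq_one
        intro v _
        obtain ⟨e, he, hv⟩ := h v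
        rw [if_neg (fun h' => h' e he hv), zero_add]
      · push Not at h
        obtain ⟨v, hv⟩ := h
        exact prod_eq_zero (mem_univ v) (by rw [if_pos hv]; ring)
    have e2 : ∀ U : Finset V, ∏ v ∈ U, (if ∀ e ∈ S, v ∉ e then (-1 : ℂ[X]) else 0) =
        C ((-1) ^ U.card) * if ∀ e ∈ S, ∀ v ∈ U, v ∉ e then 1 else 0 := by
      intro U
      split_ifs with h
      · rw [prod_congr rfl (g := fun _ => -1) fun v hv => if_pos fun e he => h e he v hv]
        simp
      · push Not at h
        obtain ⟨e, he, v, hv, hve⟩ := h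
        rw [mul_zero]
        exact prod_eq_zero hv (if_neg fun h' => h' e he hve)
    rw [e1] at this
    simp only [e2] at this
    calc _ = (if ∀ v : V, ∃ e ∈ S, v ∈ e then (1 : ℂ[X]) else 0) * X ^ S.card := by
          split_ifs <;> simp
      _ = _ := by
          rw [this, sum_mul]
          apply sum_congr rfl
          intro U _
          split_ifs <;> simp
  simp only [h1]
  rw [sum_comm]
  apply sum_congr rfl
  intro U _
  rw [← mul_sum]
  congr 1
  rw [← sum_filter]
  have : (G.edgeFinset.powerset.filter fun S => ∀ e ∈ S, ∀ v ∈ U, v ∉ e) =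
      (G.edgeFinset.filter fun e => ∀ v ∈ U, v ∉ e).powerset := by
    ext S
    simp only [mem_filter, mem_powerset, subset_iff]
    constructor
    · rintro ⟨h1, h2⟩ e he
      exact ⟨h1 he, h2 e he⟩
    · intro h
      exact ⟨fun e he => (h he).1, fun e he => (h he).2⟩
  rw [this]
  have := Finset.prod_add (s := G.edgeFinset.filter fun e => ∀ v ∈ U, v ∉ e)
    (fun _ => (X : ℂ[X])) (fun _ => 1)
  simp only [prod_const, one_pow, mul_one] at this
  exact this.symm

/-- The edge cover polynomial of a graph `G` has at least `δ(G)` distinct complex roots. -/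
theorem result {V : Type} [Fintype V] (G : SimpleGraph V) [inst : DecidableRel G.Adj]
    (hG : 1 ≤ G.minDegree) :
    coverPoly G ≠ 0 ∧ G.minDegree ≤ {z : ℂ | (coverPoly G).eval z = 0}.ncard := by
  obtain rfl : inst = fun a b => Classical.propDecidable _ := Subsingleton.elim _ _
  classical
  have hV : Nonempty V := by
    by_contra h
    rw [not_nonempty_iff] at h
    simp at hG
  set m := G.edgeFinset.card with hm
  have hcov : ∀ v : V, ∃ e ∈ G.edgeFinset, v ∈ e := by
    intro v
    have : 0 < G.degree v := lt_of_lt_of_le hG (G.minDegree_le_degree v)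
    obtain ⟨w, hw⟩ := (G.degree_pos_iff_exists_adj v).mp this
    exact ⟨s(v, w), by simpa using hw, by simp⟩
  have hcm : (coverPoly G).coeff m = 1 := by
    rw [poly_eq, finset_sum_coeff, sum_eq_single_of_mem G.edgeFinset (by simp)]
    · rw [if_pos hcov]; simp [hm]
    · intro S hS hne
      split_ifs
      · rw [coeff_X_pow, if_neg]
        intro h
        exact hne (eq_of_subset_of_card_le (mem_powerset.mp hS) h.le)
      · simp
  have hc0 : (coverPoly G).coeff 0 = 0 := by
    rw [poly_eq, finset_sum_coeff]
    apply sum_eq_zero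
    intro S _
    split_ifs with h
    · obtain ⟨e, he, -⟩ := h hV.some
      rw [coeff_X_pow, if_neg]
      exact (card_pos.mpr ⟨e, he⟩).ne
    · simp
  have hE : coverPoly G ≠ 0 := by
    intro h
    rw [h] at hcm
    simp at hcm
  have hdeg : ∀ v, G.minDegree + (G.edgeFinset.filter fun e => v ∉ e).card ≤ m := by
    intro v
    have h1 := G.minDegree_le_degree v
    rw [← G.card_incidenceFinset_eq_degree, SimpleGraph.incidenceFinset_eq_filter] at h1
    have h2 := card_filter_add_card_filter_not (s := G.edgeFinset) (fun e => v ∈ e)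
    omega
  refine ⟨hE, ?_⟩
  have hset : {z : ℂ | (coverPoly G).eval z = 0} = ↑(coverPoly G).roots.toFinset := by
    ext z
    simp [hE]
  rw [hset, Set.ncard_coe_finset]
  apply roots_bound _ m _ (le_natDegree_of_ne_zero (by rw [hcm]; exact one_ne_zero)) hc0 hE
    (by have := hdeg hV.some; omega)
  rw [poly_eq2, derivative_sum, mul_sum, mul_sum, ← sum_sub_distrib]
  apply natDegree_sum_le_of_forall_le
  intro U _
  generalize hk : (@Finset.filter _ (fun e : Sym2 V => ∀ v ∈ U, v ∉ e) (_) G.edgeFinset).card = k
  have e : C (m : ℂ) * (C ((-1) ^ U.card) * (X + 1) ^ k) -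
      (X + 1) * derivative (C ((-1 : ℂ) ^ U.card) * (X + 1) ^ k) =
      C (((m : ℂ) - k) * (-1) ^ U.card) * (X + 1) ^ k := by
    rw [derivative_C_mul, derivative_pow]
    cases k with
    | zero => simp
    | succ j =>
      simp only [derivative_add, derivative_X, derivative_one, add_zero, mul_one,
        Nat.add_sub_cancel, map_mul, map_sub]
      ring
  rw [e]
  rcases U.eq_empty_or_nonempty with rfl | ⟨v, hv⟩
  · have : k = m := by simp [← hk, hm]
    simp [this]
  · have h1 : k ≤ (G.edgeFinset.filter fun e => v ∉ e).card :=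
      hk ▸ card_le_card fun e he => by
        rw [mem_filter] at he ⊢
        exact ⟨he.1, he.2 v hv⟩
    have h2 := hdeg v
    refine (natDegree_C_mul_le _ _).trans (natDegree_pow_le.trans ?_)
    have : (X + 1 : ℂ[X]).natDegree = 1 := by
      rw [← C_1, natDegree_X_add_C]
    rw [this]
    omega

end Pool.Agent.Results.MP_a87573_co.DistinctRoots
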